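import Pool.Agent.BTL.Stmts

/-!
Squad BTL, module cdet: counting lattice points with determinant against `u` divisible by `t`.
-/

set_option autoImplicit false
set_option linter.unusedVariables false
set_option linter.style.longLine false

open MeasureTheory Filter Topology

namespace Pool.Agent.BTL.H70

/-- integers in `[-R, R]`, all congruent modulo `w` -/
theorem card_class (Z : Finset ℤ) (w : ℤ) (hw : 1 ≤ w) (R : ℝ) (hR : 0 ≤ R)
    (h1 : ∀ m ∈ Z, |(m : ℝ)| ≤ R) (h2 : ∀ m ∈ Z, ∀ m' ∈ Z, w ∣ m - m') :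
    (Z.card : ℝ) ≤ 2 * R / w + 1 := by
  have hw0 : (0 : ℝ) < w := by
    have : (0 : ℤ) < w := by omega
    exact_mod_cast this
  rcases Z.eq_empty_or_nonempty with rfl | hne
  · simp only [Finset.card_empty, Nat.cast_zero]
    positivity
  · set m0 := Z.min' hne with hm0
    have hm0Z : m0 ∈ Z := Finset.min'_mem _ _
    set F : ℕ := ⌊2 * R / w⌋₊ with hF
    have hle : Z.card ≤ (Finset.range (F + 1)).card := by
      refine Finset.card_le_card_of_injOn (fun m => ((m - m0) / w).toNat) ?_ ?_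
      · intro m hm
        have hm' : m ∈ Z := hm
        have hge : m0 ≤ m := Finset.min'_le _ _ hm'
        obtain ⟨c, hc⟩ := h2 m hm' m0 hm0Z
        have hc0 : 0 ≤ c := by
          by_contra hneg
          push Not at hneg
          nlinarith
        have hdiv : (m - m0) / w = c := by
          rw [hc]; exact Int.mul_ediv_cancel_left _ (by omega)
        have hcR : (c : ℝ) ≤ 2 * R / w := by
          rw [le_div_iff₀ hw0]
          have e1 : (m : ℝ) - m0 = w * c := by exact_mod_cast hc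
          have e2 := (abs_le.1 (h1 m hm')).2
          have e3 := (abs_le.1 (h1 m0 hm0Z)).1
          nlinarith
        have hcn : ((c.toNat : ℕ) : ℝ) = c := by
          have := Int.toNat_of_nonneg hc0
          exact_mod_cast this
        show ((m - m0) / w).toNat ∈ ((Finset.range (F + 1) : Finset ℕ) : Set ℕ)
        rw [hdiv, Finset.mem_coe, Finset.mem_range, Nat.lt_succ_iff, hF]
        exact Nat.le_floor (by rw [hcn]; exact hcR)
      · intro m hm m' hm' he
        have hm1 : m ∈ Z := hm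
        have hm1' : m' ∈ Z := hm'
        have hge : m0 ≤ m := Finset.min'_le _ _ hm1
        have hge' : m0 ≤ m' := Finset.min'_le _ _ hm1'
        obtain ⟨c, hc⟩ := h2 m hm1 m0 hm0Z
        obtain ⟨c', hc'⟩ := h2 m' hm1' m0 hm0Z
        have hc0 : 0 ≤ c := by
          by_contra hneg
          push Not at hneg
          nlinarith
        have hc0' : 0 ≤ c' := by
          by_contra hneg
          push Not at hneg
          nlinarith
        have hdiv : (m - m0) / w = c := by
          rw [hc]; exact Int.mul_ediv_cancel_left _ (by omega)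
        have hdiv' : (m' - m0) / w = c' := by
          rw [hc']; exact Int.mul_ediv_cancel_left _ (by omega)
        simp only [hdiv, hdiv'] at he
        have : c = c' := by omega
        rw [this] at hc
        omega
    rw [Finset.card_range] at hle
    have h3 : (F : ℝ) ≤ 2 * R / w := Nat.floor_le (by positivity)
    have h4 : (Z.card : ℝ) ≤ (F : ℝ) + 1 := by exact_mod_cast hle
    linarith

/-- nonzero multiples of `t` in `[-R, R]` -/
theorem card_mult (Z : Finset ℤ) (t : ℕ) (ht : 1 ≤ t) (R : ℝ) (hR : 0 ≤ R)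
    (h1 : ∀ m ∈ Z, |(m : ℝ)| ≤ R) (h2 : ∀ m ∈ Z, (t : ℤ) ∣ m) (h3 : ∀ m ∈ Z, m ≠ 0) :
    (Z.card : ℝ) ≤ 2 * R / t := by
  classical
  have ht0 : (0 : ℝ) < t := by exact_mod_cast ht
  set F : ℤ := ⌊R / t⌋ with hF
  have hF0 : 0 ≤ F := Int.floor_nonneg.2 (by positivity)
  have hle : Z.card ≤ ((Finset.Icc (-F) F).erase 0).card := by
    refine Finset.card_le_card_of_injOn (fun m => m / t) ?_ ?_
    · intro m hm
      have hm' : m ∈ Z := hm
      obtain ⟨c, hc⟩ := h2 m hm'
      have hdiv : m / (t : ℤ) = c := by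
        rw [hc]; exact Int.mul_ediv_cancel_left _ (by omega)
      have hmR := h1 m hm'
      have hcR : |(c : ℝ)| ≤ R / t := by
        rw [le_div_iff₀ ht0]
        have e1 : (m : ℝ) = t * c := by exact_mod_cast hc
        rw [e1, abs_mul, Nat.abs_cast] at hmR
        linarith
      rw [abs_le] at hcR
      have hc0 : c ≠ 0 := by
        rintro rfl
        exact h3 m hm' (by simpa using hc)
      show m / (t : ℤ) ∈ (((Finset.Icc (-F) F).erase 0 : Finset ℤ) : Set ℤ)
      rw [hdiv, Finset.mem_coe, Finset.mem_erase, Finset.mem_Icc]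
      refine ⟨hc0, ?_, ?_⟩
      · rw [neg_le, hF, Int.le_floor, Int.cast_neg]; linarith [hcR.1]
      · rw [hF, Int.le_floor]; exact hcR.2
    · intro m hm m' hm' he
      obtain ⟨c, hc⟩ := h2 m hm
      obtain ⟨c', hc'⟩ := h2 m' hm'
      have hdiv : m / (t : ℤ) = c := by
        rw [hc]; exact Int.mul_ediv_cancel_left _ (by omega)
      have hdiv' : m' / (t : ℤ) = c' := by
        rw [hc']; exact Int.mul_ediv_cancel_left _ (by omega)
      simp only [hdiv, hdiv'] at he
      rw [hc, hc', he]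
  have hcard : ((Finset.Icc (-F) F).erase 0).card = (2 * F).toNat := by
    rw [Finset.card_erase_of_mem (by rw [Finset.mem_Icc]; constructor <;> omega), Int.card_Icc]
    omega
  rw [hcard] at hle
  have h4 : ((Z.card : ℕ) : ℤ) ≤ 2 * F := by
    have : (((2 * F).toNat : ℕ) : ℤ) = 2 * F := Int.toNat_of_nonneg (by omega)
    rw [← this]; exact_mod_cast hle
  have h5 : (Z.card : ℝ) ≤ 2 * (F : ℝ) := by exact_mod_cast h4
  have h6 : (F : ℝ) ≤ R / t := Int.floor_le _
  calc (Z.card : ℝ) ≤ 2 * (F : ℝ) := h5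
    _ ≤ 2 * (R / t) := by linarith
    _ = 2 * R / t := by ring

/-- dot product of integer points -/
def dp (x y : ℤ × ℤ) : ℤ := x.1 * y.1 + x.2 * y.2

theorem lagrange (x y : ℤ × ℤ) : (dt x y : ℝ) ^ 2 + (dp x y : ℝ) ^ 2 = nz x * nz y := by
  rw [nz_eq, nz_eq]
  unfold dt dp
  push_cast
  ring

theorem abs_dt_le (x y : ℤ × ℤ) : |(dt x y : ℝ)| ≤ ln x * ln y := by
  apply abs_le_of_sq_le_sq
  · rw [mul_pow, ln_sq, ln_sq, ← lagrange]
    nlinarith [sq_nonneg (dp x y : ℝ)]
  · exact mul_nonneg (ln_nonneg _) (ln_nonneg _)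

theorem abs_dp_le (x y : ℤ × ℤ) : |(dp x y : ℝ)| ≤ ln x * ln y := by
  apply abs_le_of_sq_le_sq
  · rw [mul_pow, ln_sq, ln_sq, ← lagrange]
    nlinarith [sq_nonneg (dt x y : ℝ)]
  · exact mul_nonneg (ln_nonneg _) (ln_nonneg _)

theorem cdet : S_count_det := by
  classical
  refine ⟨6, by norm_num, fun N u t hu ht huN S hS => ?_⟩
  have hlu : 1 ≤ ln u := one_le_ln hu
  have hN : 1 ≤ N := hlu.trans huN
  have hgpos : 0 < Int.gcd u.1 u.2 := by
    rw [Nat.pos_iff_ne_zero, Ne, Int.gcd_eq_zero_iff]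
    rintro ⟨h1, h2⟩
    exact hu (Prod.ext h1 h2)
  obtain ⟨a, b, hab, h1, h2⟩ := Int.exists_gcd_one hgpos
  change (S.card : ℝ) ≤ 6 * N ^ 2 * (Nat.gcd t (Int.gcd u.1 u.2) : ℝ) / t
  set c : ℕ := Int.gcd u.1 u.2 with hc
  set u0 : ℤ × ℤ := (a, b) with hu0
  have hcop : IsCoprime a b := Int.isCoprime_iff_gcd_eq_one.2 hab
  obtain ⟨p, q, hpq⟩ := hcop
  have hu00 : u0 ≠ 0 := by
    intro h
    have ha : a = 0 := congrArg Prod.fst h
    have hb : b = 0 := congrArg Prod.snd h
    rw [ha, hb] at hpq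
    simp at hpq
  have hnz0 : nz u = (c : ℝ) ^ 2 * nz u0 := by
    rw [nz_eq, nz_eq, h1, h2, hu0]
    push_cast
    ring
  have hl0 : 1 ≤ ln u0 := one_le_ln hu00
  have hc1 : (1 : ℝ) ≤ c := by exact_mod_cast hgpos
  have hlu0 : ln u0 ≤ ln u := by
    unfold ln
    apply Real.sqrt_le_sqrt
    rw [hnz0]
    have : 1 ≤ (c : ℝ) ^ 2 := one_le_pow₀ hc1
    nlinarith [nz_nonneg u0]
  have hdtu : ∀ x : ℤ × ℤ, dt x u = c * dt x u0 := by
    intro x
    unfold dt
    rw [h1, h2]
    ring
  -- the reduced modulus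
  set e : ℕ := Nat.gcd t c with he
  have hepos : 0 < e := Nat.gcd_pos_of_pos_left _ ht
  obtain ⟨t', ht'⟩ := Nat.gcd_dvd_left t c
  obtain ⟨c', hc'⟩ := Nat.gcd_dvd_right t c
  rw [← he] at ht' hc'
  have ht'1 : 1 ≤ t' := by
    rcases Nat.eq_zero_or_pos t' with h | h
    · rw [h] at ht'; omega
    · exact h
  have hcopt : Nat.Coprime t' c' := by
    have := Nat.coprime_div_gcd_div_gcd (m := t) (n := c) (by rw [← he]; exact hepos)
    rw [← he, ht'] at this
    have e1 : e * t' / e = t' := Nat.mul_div_cancel_left _ hepos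
    have e2 : c / e = c' := by
      rw [Nat.div_eq_iff_eq_mul_right hepos (Nat.gcd_dvd_right t c)]
      exact hc'
    rw [e1, e2] at this
    exact this
  have hdiv0 : ∀ x : ℤ × ℤ, (t : ℤ) ∣ dt x u → (t' : ℤ) ∣ dt x u0 := by
    intro x hx
    rw [hdtu x, ht', hc'] at hx
    push_cast at hx
    have h3 : (e : ℤ) * t' ∣ (e : ℤ) * (c' * dt x u0) := by
      rw [← mul_assoc]; exact hx
    have he0 : (e : ℤ) ≠ 0 := by omega
    have h4 : (t' : ℤ) ∣ c' * dt x u0 := (mul_dvd_mul_iff_left he0).1 h3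
    have hco : IsCoprime (t' : ℤ) (c' : ℤ) := Nat.isCoprime_iff_coprime.2 hcopt
    exact hco.dvd_of_dvd_mul_left h4
  -- structure of the fibers
  have hfib : ∀ x y : ℤ × ℤ, dt x u0 = dt y u0 →
      ∃ l : ℤ, x.1 - y.1 = l * a ∧ x.2 - y.2 = l * b := by
    intro x y hxy
    have h5 : (x.1 - y.1) * b = (x.2 - y.2) * a := by
      unfold dt at hxy
      rw [hu0] at hxy
      simp only at hxy
      linarith
    refine ⟨p * (x.1 - y.1) + q * (x.2 - y.2), ?_, ?_⟩
    · calc x.1 - y.1 = (x.1 - y.1) * (p * a + q * b) := by rw [hpq]; ring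
        _ = p * (x.1 - y.1) * a + q * ((x.1 - y.1) * b) := by ring
        _ = p * (x.1 - y.1) * a + q * ((x.2 - y.2) * a) := by rw [h5]
        _ = _ := by ring
    · calc x.2 - y.2 = (x.2 - y.2) * (p * a + q * b) := by rw [hpq]; ring
        _ = p * ((x.2 - y.2) * a) + q * (x.2 - y.2) * b := by ring
        _ = p * ((x.1 - y.1) * b) + q * (x.2 - y.2) * b := by rw [h5]
        _ = _ := by ring
  set w : ℤ := a ^ 2 + b ^ 2 with hw
  have hwr : (w : ℝ) = nz u0 := by
    rw [nz_eq, hw, hu0]; push_cast; rfl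
  have hw1 : 1 ≤ w := by
    have : (1 : ℝ) ≤ w := by rw [hwr]; exact one_le_nz hu00
    exact_mod_cast this
  have hN0 : 0 ≤ N := by linarith
  have hR0 : 0 ≤ N * ln u0 := by positivity
  have hfibcard : ∀ n ∈ S.image (fun x => dt x u0),
      (S.filter fun x => dt x u0 = n).card ≤ ⌊3 * N / ln u0⌋₊ := by
    intro n hn
    apply Nat.le_floor
    have hinj : (S.filter fun x => dt x u0 = n).card =
        ((S.filter fun x => dt x u0 = n).image (fun x => dp x u0)).card := by
      rw [Finset.card_image_of_injOn]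
      intro x hx y hy hxy
      rw [Finset.mem_coe, Finset.mem_filter] at hx hy
      obtain ⟨l, hl1, hl2⟩ := hfib x y (hx.2.trans hy.2.symm)
      have h6 : l * w = 0 := by
        have : dp x u0 - dp y u0 = l * w := by
          unfold dp
          rw [hu0, hw]
          simp only
          linear_combination a * hl1 + b * hl2
        rw [← this]
        simp only at hxy
        rw [hxy, sub_self]
      rcases mul_eq_zero.1 h6 with h | h
      · rw [h] at hl1 hl2
        exact Prod.ext (by linarith) (by linarith)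
      · omega
    rw [hinj]
    have h7 := card_class ((S.filter fun x => dt x u0 = n).image (fun x => dp x u0)) w hw1
      (N * ln u0) hR0 ?_ ?_
    · refine h7.trans ?_
      rw [hwr, ← ln_sq]
      have h8 : 2 * (N * ln u0) / ln u0 ^ 2 = 2 * N / ln u0 := by
        field_simp
      rw [h8]
      have h9 : 1 ≤ N / ln u0 := by
        rw [le_div_iff₀ (by linarith), one_mul]; linarith
      calc 2 * N / ln u0 + 1 ≤ 2 * N / ln u0 + N / ln u0 := by linarith
        _ = 3 * N / ln u0 := by ring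
    · intro m hm
      rw [Finset.mem_image] at hm
      obtain ⟨x, hx, rfl⟩ := hm
      rw [Finset.mem_filter] at hx
      refine (abs_dp_le x u0).trans ?_
      exact mul_le_mul_of_nonneg_right (hS x hx.1).1 (ln_nonneg _)
    · intro m hm m' hm'
      rw [Finset.mem_image] at hm hm'
      obtain ⟨x, hx, rfl⟩ := hm
      obtain ⟨y, hy, rfl⟩ := hm'
      rw [Finset.mem_filter] at hx hy
      obtain ⟨l, hl1, hl2⟩ := hfib x y (hx.2.trans hy.2.symm)
      refine ⟨l, ?_⟩
      unfold dp
      rw [hu0, hw]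
      simp only
      linear_combination a * hl1 + b * hl2
  have himg : ((S.image (fun x => dt x u0)).card : ℝ) ≤ 2 * (N * ln u0) / t' := by
    refine card_mult _ t' ht'1 (N * ln u0) hR0 ?_ ?_ ?_
    · intro m hm
      rw [Finset.mem_image] at hm
      obtain ⟨x, hx, rfl⟩ := hm
      refine (abs_dt_le x u0).trans ?_
      exact mul_le_mul_of_nonneg_right (hS x hx).1 (ln_nonneg _)
    · intro m hm
      rw [Finset.mem_image] at hm
      obtain ⟨x, hx, rfl⟩ := hm
      exact hdiv0 x (hS x hx).2.2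
    · intro m hm
      rw [Finset.mem_image] at hm
      obtain ⟨x, hx, rfl⟩ := hm
      intro h0
      apply (hS x hx).2.1
      rw [hdtu, h0, mul_zero]
  have hmain := Finset.card_le_mul_card_image S ⌊3 * N / ln u0⌋₊ hfibcard
  have hl00 : 0 < ln u0 := by linarith
  have ht'0 : (0 : ℝ) < t' := by exact_mod_cast ht'1
  calc (S.card : ℝ) ≤ ((⌊3 * N / ln u0⌋₊ * (S.image (fun x => dt x u0)).card : ℕ) : ℝ) := by
        exact_mod_cast hmain
    _ = ((⌊3 * N / ln u0⌋₊ : ℕ) : ℝ) * ((S.image (fun x => dt x u0)).card : ℝ) := by push_cast; rfl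
    _ ≤ (3 * N / ln u0) * (2 * (N * ln u0) / t') := by
        have g1 : 0 ≤ 3 * N / ln u0 := div_nonneg (mul_nonneg (by norm_num) hN0) hl00.le
        exact mul_le_mul (Nat.floor_le g1) himg (Nat.cast_nonneg _) g1
    _ = 6 * N ^ 2 * (e : ℝ) / t := by
        have : (t : ℝ) = e * t' := by exact_mod_cast ht'
        rw [this]
        have he0 : (e : ℝ) ≠ 0 := by
          have : (0 : ℝ) < e := by exact_mod_cast hepos
          exact this.ne'
        field_simp
        ring

end Pool.Agent.BTL.H70
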