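import Pool.Agent.BTL.Stmts

/-!
# Squad BTL: bounds for the pair kernel
-/

set_option autoImplicit false

open MeasureTheory

namespace Pool.Agent.BTL.H70

open Pool.Agent.BTL

theorem chi_nonneg (M : ℝ) (A : ℝ × ℝ × ℝ) : 0 ≤ chi M A := by
  unfold chi; positivity

theorem chi_le_one {M : ℝ} (hM : 0 < M) (A : ℝ × ℝ × ℝ) : chi M A ≤ 1 := by
  have h : ∀ t : ℝ, max 0 (1 - |t| / (2 * M)) ≤ 1 := by
    intro t
    refine max_le zero_le_one ?_
    have : 0 ≤ |t| / (2 * M) := by positivity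
    linarith
  have h0 : ∀ t : ℝ, 0 ≤ max 0 (1 - |t| / (2 * M)) := fun t => le_max_left _ _
  unfold chi
  exact mul_le_one₀ (h _) (mul_nonneg (h0 _) (h0 _)) (mul_le_one₀ (h _) (h0 _) (h _))

theorem chi_supp {M : ℝ} (hM : 0 < M) {A : ℝ × ℝ × ℝ} (h : ¬ ‖A‖ ≤ 2 * M) : chi M A = 0 := by
  have key : ∀ t : ℝ, 2 * M < |t| → max 0 (1 - |t| / (2 * M)) = 0 := by
    intro t ht
    refine max_eq_left ?_
    have : 1 ≤ |t| / (2 * M) := by
      rw [le_div_iff₀ (by linarith)]; linarith
    linarith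
  simp only [Prod.norm_def, Real.norm_eq_abs, sup_le_iff, not_and_or, not_le] at h
  unfold chi
  rcases h with h | h | h
  · rw [key _ h]; ring
  · rw [key _ h]; ring
  · rw [key _ h]; ring

theorem vol_ball {M : ℝ} (hM : 0 < M) :
    volume {A : ℝ × ℝ × ℝ | ‖A‖ ≤ 2 * M} = ENNReal.ofReal (64 * M ^ 3) := by
  have h : {A : ℝ × ℝ × ℝ | ‖A‖ ≤ 2 * M} =
      Metric.closedBall (0 : ℝ) (2 * M) ×ˢ (Metric.closedBall (0 : ℝ) (2 * M) ×ˢ
        Metric.closedBall (0 : ℝ) (2 * M)) := by
    ext A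
    simp only [Set.mem_ofPred_eq, Prod.norm_def, sup_le_iff, Set.mem_prod, mem_closedBall_zero_iff]
  rw [h, Measure.volume_eq_prod, Measure.prod_prod, Measure.volume_eq_prod, Measure.prod_prod,
    Real.volume_closedBall, ← ENNReal.ofReal_mul (by positivity),
    ← ENNReal.ofReal_mul (by positivity)]
  congr 1
  ring

theorem ffb (hs : S_slab1) : S_FF_bounds := by
  intro M hM
  have hM0 : 0 < M := by linarith
  have hM3 : M ^ 2 ≤ M ^ 3 := pow_le_pow_right₀ hM (by norm_num)
  have hM1 : 1 ≤ M ^ 3 := one_le_pow₀ hM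
  refine ⟨64 * M ^ 3, by linarith, ?_⟩
  intro h w hh
  have hnn : ∀ A : ℝ × ℝ × ℝ, 0 ≤ chi M A * max 0 (h - |dot A w|) := fun A =>
    mul_nonneg (chi_nonneg _ _) (le_max_left _ _)
  have hle : ∀ A : ℝ × ℝ × ℝ, chi M A * max 0 (h - |dot A w|) ≤ h := by
    intro A
    have h1 : max 0 (h - |dot A w|) ≤ h := max_le hh (by linarith [abs_nonneg (dot A w)])
    calc _ ≤ 1 * h := mul_le_mul (chi_le_one hM0 A) h1 (le_max_left _ _) zero_le_one
      _ = h := one_mul h
  -- the general bound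
  have gen : ∀ (S : Set (ℝ × ℝ × ℝ)) (R : ℝ), 0 ≤ R → MeasurableSet S →
      volume S ≤ ENNReal.ofReal R →
      (∀ A, A ∉ S → chi M A * max 0 (h - |dot A w|) = 0) → FF M h w ≤ R * h := by
    intro S R hR hS hv h0
    have hfin : volume S ≠ ⊤ := ne_top_of_le_ne_top ENNReal.ofReal_ne_top hv
    have h1 : FF M h w ≤ ∫ A, S.indicator (fun _ => h) A := by
      unfold FF
      refine integral_mono_of_nonneg (Filter.Eventually.of_forall hnn) ?_
        (Filter.Eventually.of_forall ?_)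
      · rw [integrable_indicator_iff hS]
        exact integrableOn_const (hs := hfin)
      · intro A
        by_cases hA : A ∈ S
        · simp only [Set.indicator_of_mem hA]
          exact hle A
        · simp only [Set.indicator_of_notMem hA]
          rw [h0 A hA]
    rw [integral_indicator hS, setIntegral_const, smul_eq_mul] at h1
    refine h1.trans (mul_le_mul_of_nonneg_right ?_ hh)
    rw [Measure.real, ← ENNReal.toReal_ofReal hR]
    exact ENNReal.toReal_mono ENNReal.ofReal_ne_top hv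
  have mnorm : MeasurableSet {A : ℝ × ℝ × ℝ | ‖A‖ ≤ 2 * M} :=
    (isClosed_le continuous_norm continuous_const).measurableSet
  refine ⟨integral_nonneg hnn, ?_, ?_⟩
  · refine gen {A | ‖A‖ ≤ 2 * M} _ (by positivity) mnorm (vol_ball hM0).le ?_
    intro A hA
    rw [chi_supp hM0 hA, zero_mul]
  · intro hw
    have hwp : 0 < ‖w‖ := norm_pos_iff.2 hw
    have hv := hs (2 * M) (by linarith) w hw 0 h hh
    have hc : Continuous fun A : ℝ × ℝ × ℝ => |dot A w - 0| := by
      unfold dot; fun_prop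
    have hm : MeasurableSet {A : ℝ × ℝ × ℝ | ‖A‖ ≤ 2 * M ∧ |dot A w - 0| ≤ h} :=
      mnorm.inter (isClosed_le hc continuous_const).measurableSet
    have h1 := gen _ _ (by positivity) hm hv (by
      intro A hA
      simp only [Set.mem_ofPred_eq, not_and_or] at hA
      rcases hA with hA | hA
      · rw [chi_supp hM0 hA, zero_mul]
      · rw [sub_zero, not_le] at hA
        rw [max_eq_left (by linarith), mul_zero])
    refine h1.trans ?_
    rw [div_mul_eq_mul_div]
    refine div_le_div_of_nonneg_right ?_ hwp.le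
    nlinarith [mul_nonneg hh hh, mul_nonneg (sub_nonneg.2 hM3) (mul_nonneg hh hh)]

end Pool.Agent.BTL.H70
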