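import Pool.Agent.BTL.Stmts

/-!
Squad BTL, module quad: the count of quadruples from the parametrisation by the relation `k`
and the vector `a`.
-/

set_option autoImplicit false
set_option linter.unusedVariables false
set_option linter.style.longLine false

open MeasureTheory Filter Topology

namespace Pool.Agent.BTL.H70

/-- integer box -/
noncomputable def BX (N : ℝ) : Finset (Fin 4 → ℤ) := Fintype.piFinset fun _ => Finset.Icc (-⌊N⌋) ⌊N⌋

theorem mem_BX {N : ℝ} {a : Fin 4 → ℤ} : a ∈ BX N ↔ ∀ i, |(a i : ℝ)| ≤ N := by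
  unfold BX
  rw [Fintype.mem_piFinset]
  refine forall_congr' fun i => ?_
  rw [Finset.mem_Icc, neg_le, Int.le_floor, Int.le_floor, abs_le]
  push_cast
  constructor
  · rintro ⟨h1, h2⟩; exact ⟨by linarith, h2⟩
  · rintro ⟨h1, h2⟩; exact ⟨by linarith, h2⟩

theorem norm_le_iff4 {N : ℝ} (hN : 0 ≤ N) {a : Fin 4 → ℤ} : ‖a‖ ≤ N ↔ ∀ i, |(a i : ℝ)| ≤ N := by
  rw [pi_norm_le_iff_of_nonneg hN]
  refine forall_congr' fun i => ?_
  rw [Int.norm_eq_abs]

theorem mem_BX_iff {N : ℝ} (hN : 0 ≤ N) {a : Fin 4 → ℤ} : a ∈ BX N ↔ ‖a‖ ≤ N := by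
  rw [mem_BX, norm_le_iff4 hN]

theorem abs_of_nz {T : ℝ} (hT : 0 ≤ T) {x : ℤ × ℤ} (h : nz x ≤ T ^ 2) :
    |(x.1 : ℝ)| ≤ T ∧ |(x.2 : ℝ)| ≤ T := by
  rw [nz_eq] at h
  constructor
  · exact abs_le_of_sq_le_sq (by nlinarith [sq_nonneg (x.2 : ℝ)]) hT
  · exact abs_le_of_sq_le_sq (by nlinarith [sq_nonneg (x.1 : ℝ)]) hT

theorem QS_trivial (M T K D : ℝ) (hT : 1 ≤ T) :
    ((QS M T K D).ncard : ℝ) ≤ 6561 * T ^ 8 := by
  classical
  have hsub : QS M T K D ⊆ ((Fintype.piFinset fun _ : Fin 4 =>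
      (Finset.Icc (-⌊T⌋) ⌊T⌋ ×ˢ Finset.Icc (-⌊T⌋) ⌊T⌋) : Finset (Fin 4 → ℤ × ℤ)) :
      Set (Fin 4 → ℤ × ℤ)) := by
    intro q hq
    rw [Finset.mem_coe, Fintype.mem_piFinset]
    intro i
    obtain ⟨h1, h2⟩ := abs_of_nz (by linarith) (hq.1 i)
    rw [abs_le] at h1 h2
    have g1 : -⌊T⌋ ≤ (q i).1 := by
      rw [neg_le, Int.le_floor]; push_cast; linarith [h1.1]
    have g2 : -⌊T⌋ ≤ (q i).2 := by
      rw [neg_le, Int.le_floor]; push_cast; linarith [h2.1]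
    have g3 : (q i).1 ≤ ⌊T⌋ := by
      rw [Int.le_floor]; exact h1.2
    have g4 : (q i).2 ≤ ⌊T⌋ := by
      rw [Int.le_floor]; exact h2.2
    rw [Finset.mem_product, Finset.mem_Icc, Finset.mem_Icc]
    exact ⟨⟨g1, g3⟩, ⟨g2, g4⟩⟩
  have hc := Set.ncard_le_ncard hsub (Finset.finite_toSet _)
  rw [Set.ncard_coe_finset, Fintype.card_piFinset] at hc
  simp only [Finset.prod_const, Finset.card_univ, Fintype.card_fin, Finset.card_product,
    Int.card_Icc] at hc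
  have hf : (1 : ℤ) ≤ ⌊T⌋ := by rw [Int.le_floor]; push_cast; exact hT
  have e1 : (((⌊T⌋ + 1 - -⌊T⌋).toNat : ℕ) : ℝ) ≤ 3 * T := by
    have : (((⌊T⌋ + 1 - -⌊T⌋).toNat : ℕ) : ℤ) = ⌊T⌋ + 1 - -⌊T⌋ := Int.toNat_of_nonneg (by omega)
    have h2 : (((⌊T⌋ + 1 - -⌊T⌋).toNat : ℕ) : ℝ) = ((⌊T⌋ + 1 - -⌊T⌋ : ℤ) : ℝ) := by
      rw [← this]; push_cast; rfl
    rw [h2]
    push_cast
    have := Int.floor_le T
    linarith
  calc ((QS M T K D).ncard : ℝ) ≤ (((⌊T⌋ + 1 - -⌊T⌋).toNat * (⌊T⌋ + 1 - -⌊T⌋).toNat) ^ 4 : ℕ) := by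
        exact_mod_cast hc
    _ = ((((⌊T⌋ + 1 - -⌊T⌋).toNat : ℕ) : ℝ) * (((⌊T⌋ + 1 - -⌊T⌋).toNat : ℕ) : ℝ)) ^ 4 := by
        push_cast; rfl
    _ ≤ ((3 * T) * (3 * T)) ^ 4 := by
        apply pow_le_pow_left₀ (by positivity)
        exact mul_le_mul e1 e1 (by positivity) (by positivity)
    _ = 6561 * T ^ 8 := by ring

theorem one_le_norm4 {k : Fin 4 → ℤ} (hk : k ≠ 0) : 1 ≤ ‖k‖ := by
  obtain ⟨i, hi⟩ := Function.ne_iff.mp hk
  have h1 : ‖k i‖ ≤ ‖k‖ := norm_le_pi_norm k i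
  have h2 : (1 : ℤ) ≤ |k i| := Int.one_le_abs hi
  have h3 : (1 : ℝ) ≤ ‖k i‖ := by
    rw [Int.norm_eq_abs]
    exact_mod_cast h2
  linarith

open Classical in
theorem quad (h1 : S_exists_GQ) (h2 : S_fiber_GQ) (h3 : S_count_a) (h4 : S_sum_inv_sq4) :
    S_quad_count := by
  intro M hM
  obtain ⟨c, C1, hc, hC1, h1⟩ := h1 M hM
  obtain ⟨C2, hC2, h2⟩ := h2 M hM c hc
  obtain ⟨C3, hC3, h3⟩ := h3
  obtain ⟨C4, hC4, h4⟩ := h4
  refine ⟨6561 * C2 ^ 2 + 8 * C2 * C3 * C4 * (C1 + 1) * (8 * C1) ^ 5, ?_, fun T K D hT hK hD => ?_⟩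
  · have e1 : 1 ≤ C2 ^ 2 := one_le_pow₀ hC2
    have e2 : 0 ≤ 8 * C2 * C3 * C4 * (C1 + 1) * (8 * C1) ^ 5 := by positivity
    linarith
  change ((QS M T K D).ncard : ℝ) ≤ _
  have hP : 0 ≤ 8 * C2 * C3 * C4 * (C1 + 1) * (8 * C1) ^ 5 := by positivity
  have hD2 : 1 ≤ D ^ 2 := one_le_pow₀ hD
  rcases lt_or_ge T (C2 * K ^ 6) with hs | hs
  · refine (QS_trivial M T K D hT).trans ?_
    have e1 : T ^ 2 ≤ C2 ^ 2 * K ^ 40 := by
      calc T ^ 2 ≤ (C2 * K ^ 6) ^ 2 := pow_le_pow_left₀ (by linarith) hs.le 2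
        _ = C2 ^ 2 * K ^ 12 := by ring
        _ ≤ C2 ^ 2 * K ^ 40 := by
          apply mul_le_mul_of_nonneg_left _ (by positivity)
          exact pow_le_pow_right₀ hK (by norm_num)
    calc 6561 * T ^ 8 = 6561 * T ^ 6 * T ^ 2 := by ring
      _ ≤ 6561 * T ^ 6 * (C2 ^ 2 * K ^ 40) := mul_le_mul_of_nonneg_left e1 (by positivity)
      _ = (6561 * C2 ^ 2) * K ^ 40 * 1 * T ^ 6 := by ring
      _ ≤ (6561 * C2 ^ 2 + 8 * C2 * C3 * C4 * (C1 + 1) * (8 * C1) ^ 5) * K ^ 40 * D ^ 2 * T ^ 6 := by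
        gcongr
        linarith
  · set N : ℝ := 8 * C1 * T with hN
    have hT0 : 0 < T := by linarith
    have hN1 : 1 ≤ N := by
      have : 1 ≤ C1 * T := one_le_mul_of_one_le_of_one_le hC1 hT
      rw [hN]; nlinarith
    have hC1T : C1 * T ≤ N := by
      have : 0 ≤ C1 * T := by positivity
      rw [hN]; nlinarith
    have h8T : 8 * T ≤ N := by
      rw [hN]; nlinarith
    set KS : Finset (Fin 4 → ℤ) := (BX N).filter (fun k => k ≠ 0 ∧
      (∀ t : ℤ, (∀ i, t ∣ k i) → IsUnit t) ∧ ‖k‖ ≤ C1 * T) with hKS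
    set AS : (Fin 4 → ℤ) → Finset (Fin 4 → ℤ) := fun k =>
      (BX N).filter (fun a => ∑ i, k i * a i = 0) with hAS
    set BS : ℕ → (Fin 4 → ℤ) → (Fin 4 → ℤ) → Finset (Fin 4 → ℤ) := fun j k a =>
      (BX N).filter (fun b => GQ M T K D c j k (fun i => (a i - (j : ℤ) * b i, b i))) with hBS
    set F : Finset (Fin 4 → ℤ × ℤ) := (Finset.range 8).biUnion fun j => KS.biUnion fun k =>
      (AS k).biUnion fun a => (BS j k a).image (fun b i => (a i - (j : ℤ) * b i, b i)) with hF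
    have hsub : QS M T K D ⊆ (F : Set (Fin 4 → ℤ × ℤ)) := by
      intro q hq
      obtain ⟨j, hj, k, hk0, hkp, hkT, hG⟩ := h1 T K D hT hK hD q hq
      rw [Finset.mem_coe, hF, Finset.mem_biUnion]
      refine ⟨j, Finset.mem_range.2 hj, ?_⟩
      rw [Finset.mem_biUnion]
      have hj7 : (j : ℝ) ≤ 7 := by
        have : j ≤ 7 := by omega
        exact_mod_cast this
      refine ⟨k, ?_, ?_⟩
      · rw [hKS, Finset.mem_filter, mem_BX_iff (by linarith)]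
        exact ⟨hkT.trans hC1T, hk0, hkp, hkT⟩
      rw [Finset.mem_biUnion]
      refine ⟨fun i => (q i).1 + (j : ℤ) * (q i).2, ?_, ?_⟩
      · rw [hAS]
        simp only
        rw [Finset.mem_filter, mem_BX]
        refine ⟨fun i => ?_, ?_⟩
        · obtain ⟨e1, e2⟩ := abs_of_nz hT0.le (hq.1 i)
          push_cast
          calc |((q i).1 : ℝ) + (j : ℝ) * ((q i).2 : ℝ)| ≤ |((q i).1 : ℝ)| + |(j : ℝ) * ((q i).2 : ℝ)| :=
                abs_add_le _ _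
            _ = |((q i).1 : ℝ)| + (j : ℝ) * |((q i).2 : ℝ)| := by
                rw [abs_mul, Nat.abs_cast]
            _ ≤ T + 7 * T := by
                gcongr
            _ ≤ N := by linarith
        · have e1 := hG.2.1
          have e2 := hG.2.2.1
          have : ∑ i, k i * ((q i).1 + (j : ℤ) * (q i).2) =
              ∑ i, k i * (q i).1 + (j : ℤ) * ∑ i, k i * (q i).2 := by
            rw [Finset.mul_sum, ← Finset.sum_add_distrib]
            exact Finset.sum_congr rfl fun i _ => by ring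
          rw [this, e1, e2]; simp
      · rw [Finset.mem_image]
        have hqe : (fun i => (((q i).1 + (j : ℤ) * (q i).2) - (j : ℤ) * (q i).2, (q i).2)) = q := by
          funext i
          refine Prod.ext ?_ rfl
          simp
        refine ⟨fun i => (q i).2, ?_, hqe⟩
        rw [hBS]
        simp only
        rw [Finset.mem_filter, mem_BX]
        refine ⟨fun i => ?_, ?_⟩
        · obtain ⟨e1, e2⟩ := abs_of_nz hT0.le (hq.1 i)
          linarith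
        · rw [hqe]; exact hG
    have hcard : ((QS M T K D).ncard : ℝ) ≤ ∑ j ∈ Finset.range 8, ∑ k ∈ KS, ∑ a ∈ AS k,
        ((BS j k a).card : ℝ) := by
      have e1 := Set.ncard_le_ncard hsub (Finset.finite_toSet _)
      rw [Set.ncard_coe_finset] at e1
      have e2 : F.card ≤ ∑ j ∈ Finset.range 8, ∑ k ∈ KS, ∑ a ∈ AS k, (BS j k a).card := by
        refine Finset.card_biUnion_le.trans (Finset.sum_le_sum fun j _ => ?_)
        refine Finset.card_biUnion_le.trans (Finset.sum_le_sum fun k _ => ?_)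
        refine Finset.card_biUnion_le.trans (Finset.sum_le_sum fun a _ => ?_)
        exact Finset.card_image_le
      exact_mod_cast e1.trans e2
    refine hcard.trans ?_
    have hk1 : ∀ j ∈ Finset.range 8, ∀ k ∈ KS, ∑ a ∈ AS k, ((BS j k a).card : ℝ) ≤
        C2 * K ^ 36 * D ^ 2 * C3 * (C1 + 1) * N ^ 3 * T * (1 / ‖k‖ ^ 2) := by
      intro j hj k hk
      rw [hKS, Finset.mem_filter] at hk
      obtain ⟨-, hk0, hkp, hkT⟩ := hk
      have hkn := one_le_norm4 hk0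
      have hkn0 : 0 < ‖k‖ := by linarith
      have e1 : ∀ a ∈ AS k, ((BS j k a).card : ℝ) ≤ C2 * K ^ 36 * D ^ 2 * ((C1 + 1) * T / ‖k‖) := by
        intro a ha
        rw [hAS] at ha
        simp only at ha
        rw [Finset.mem_filter] at ha
        refine (h2 T K D hK hD hs j (Finset.mem_range.1 hj) k hk0 hkp a ha.2 (BS j k a) ?_).trans ?_
        · intro b hb
          rw [hBS] at hb
          simp only at hb
          rw [Finset.mem_filter] at hb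
          exact hb.2
        · apply mul_le_mul_of_nonneg_left _ (by positivity)
          have : 1 ≤ C1 * T / ‖k‖ := by rwa [le_div_iff₀ hkn0, one_mul]
          calc 1 + T / ‖k‖ ≤ C1 * T / ‖k‖ + T / ‖k‖ := by linarith
            _ = (C1 + 1) * T / ‖k‖ := by ring
      have e2 : ((AS k).card : ℝ) ≤ C3 * N ^ 3 / ‖k‖ := by
        refine h3 N k hN1 hk0 hkp (hkT.trans hC1T) (AS k) ?_
        intro a ha
        rw [hAS] at ha
        simp only at ha
        rw [Finset.mem_filter, mem_BX_iff (by linarith)] at ha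
        exact ha
      calc ∑ a ∈ AS k, ((BS j k a).card : ℝ)
          ≤ ∑ a ∈ AS k, C2 * K ^ 36 * D ^ 2 * ((C1 + 1) * T / ‖k‖) := Finset.sum_le_sum e1
        _ = ((AS k).card : ℝ) * (C2 * K ^ 36 * D ^ 2 * ((C1 + 1) * T / ‖k‖)) := by
            rw [Finset.sum_const, nsmul_eq_mul]
        _ ≤ (C3 * N ^ 3 / ‖k‖) * (C2 * K ^ 36 * D ^ 2 * ((C1 + 1) * T / ‖k‖)) := by
            apply mul_le_mul_of_nonneg_right e2 (by positivity)
        _ = C2 * K ^ 36 * D ^ 2 * C3 * (C1 + 1) * N ^ 3 * T * (1 / ‖k‖ ^ 2) := by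
            field_simp
    have hk2 : ∑ k ∈ KS, 1 / ‖k‖ ^ 2 ≤ C4 * N ^ 2 := by
      refine h4 N hN1 KS ?_
      intro k hk
      rw [hKS, Finset.mem_filter] at hk
      exact ⟨hk.2.1, hk.2.2.2.trans hC1T⟩
    calc ∑ j ∈ Finset.range 8, ∑ k ∈ KS, ∑ a ∈ AS k, ((BS j k a).card : ℝ)
        ≤ ∑ j ∈ Finset.range 8, ∑ k ∈ KS,
            C2 * K ^ 36 * D ^ 2 * C3 * (C1 + 1) * N ^ 3 * T * (1 / ‖k‖ ^ 2) :=
          Finset.sum_le_sum fun j hj => Finset.sum_le_sum fun k hk => hk1 j hj k hk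
      _ = 8 * (C2 * K ^ 36 * D ^ 2 * C3 * (C1 + 1) * N ^ 3 * T * ∑ k ∈ KS, 1 / ‖k‖ ^ 2) := by
          rw [Finset.sum_const, Finset.card_range, nsmul_eq_mul, ← Finset.mul_sum]
          norm_num
      _ ≤ 8 * (C2 * K ^ 36 * D ^ 2 * C3 * (C1 + 1) * N ^ 3 * T * (C4 * N ^ 2)) := by
          gcongr
      _ = (8 * C2 * C3 * C4 * (C1 + 1) * (8 * C1) ^ 5) * K ^ 36 * D ^ 2 * T ^ 6 := by
          rw [hN]; ring
      _ ≤ (6561 * C2 ^ 2 + 8 * C2 * C3 * C4 * (C1 + 1) * (8 * C1) ^ 5) * K ^ 40 * D ^ 2 * T ^ 6 := by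
          have e0 : 0 ≤ 6561 * C2 ^ 2 := by positivity
          have e5 : K ^ 36 ≤ K ^ 40 := pow_le_pow_right₀ hK (by norm_num)
          gcongr
          linarith

end Pool.Agent.BTL.H70
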