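import Pool.Agent.BTL.Stmts

/-!
# Squad BTL: separation and the pointwise bound
-/

set_option autoImplicit false

namespace Pool.Agent.BTL.H70

open Pool.Agent.BTL

theorem nz_add_sub (x y : ℤ × ℤ) : nz (x - y) + nz (x + y) = 2 * (nz x + nz y) := by
  simp only [nz_eq, Prod.fst_sub, Prod.snd_sub, Prod.fst_add, Prod.snd_add]
  push_cast
  ring

/-- the basic identity -/
theorem disc_id (A : ℝ × ℝ × ℝ) (x y : ℤ × ℤ) :
    disc A * (4 * (dt x y : ℝ) ^ 2) =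
      qz A (x - y) * qz A (x + y) - (qz A x - qz A y) ^ 2 := by
  simp only [disc, dt, qz, qf, rc, Prod.fst_sub, Prod.snd_sub, Prod.fst_add, Prod.snd_add]
  push_cast
  ring

theorem sep : S_sep := by
  intro M hM h A hA x y h1 h2 hd hx
  have hM0 : 0 < M := by linarith
  have hu : x - y ≠ 0 := sub_ne_zero.2 h1
  have hp : x + y ≠ 0 := fun h => h2 (eq_neg_of_add_eq_zero_left h)
  have u1 := one_le_nz hu
  have p1 := one_le_nz hp
  have hs := nz_add_sub x y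
  have hy := nz_nonneg y
  have hUP : nz x ≤ nz (x - y) * nz (x + y) := by
    nlinarith [mul_nonneg (sub_nonneg.2 u1) (sub_nonneg.2 p1)]
  have qu : nz (x - y) / M ≤ qz A (x - y) := (hA (rc (x - y))).1
  have qp : nz (x + y) / M ≤ qz A (x + y) := (hA (rc (x + y))).1
  have hd2 : (qz A x - qz A y) ^ 2 ≤ h ^ 2 := sq_le_sq' (by linarith [(abs_le.1 hd).1])
    (abs_le.1 hd).2
  have hprod : (nz (x - y) / M) * (nz (x + y) / M) ≤ qz A (x - y) * qz A (x + y) :=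
    mul_le_mul qu qp (by positivity) (le_trans (by positivity) qu)
  have hdisc := (KM_disc hM hA).2
  have hid := disc_id A x y
  have h3 : disc A * (4 * (dt x y : ℝ) ^ 2) ≤ M ^ 2 * (4 * (dt x y : ℝ) ^ 2) :=
    mul_le_mul_of_nonneg_right hdisc (by positivity)
  have h4 : nz (x - y) * nz (x + y) / M ^ 2 - h ^ 2 ≤ M ^ 2 * (4 * (dt x y : ℝ) ^ 2) := by
    have e : (nz (x - y) / M) * (nz (x + y) / M) = nz (x - y) * nz (x + y) / M ^ 2 := by
      field_simp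
    rw [e] at hprod
    linarith
  have h5 : nz (x - y) * nz (x + y) - M ^ 2 * h ^ 2 ≤ M ^ 4 * (4 * (dt x y : ℝ) ^ 2) := by
    have h6 := mul_le_mul_of_nonneg_left h4 (by positivity : 0 ≤ M ^ 2)
    have e : M ^ 2 * (nz (x - y) * nz (x + y) / M ^ 2 - h ^ 2) =
        nz (x - y) * nz (x + y) - M ^ 2 * h ^ 2 := by field_simp
    rw [e] at h6
    calc _ ≤ _ := h6
      _ = _ := by ring
  linarith

theorem rh_nonneg (x y : ℤ × ℤ) : 0 ≤ rh x y := le_min (ln_nonneg _) (ln_nonneg _)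

theorem one_le_rh {x y : ℤ × ℤ} (h1 : x ≠ y) (h2 : x ≠ -y) : 1 ≤ rh x y :=
  le_min (one_le_ln (sub_ne_zero.2 h1)) (one_le_ln fun h => h2 (eq_neg_of_add_eq_zero_left h))

/-- comparison with the determinant -/
theorem ln_rh {M h : ℝ} (hM : 1 ≤ M) {A : ℝ × ℝ × ℝ} (hA : A ∈ KM M) {x y : ℤ × ℤ}
    (h1 : x ≠ y) (h2 : x ≠ -y) (hd : |qz A x - qz A y| ≤ h) (hx : 2 * M ^ 2 * h ^ 2 ≤ nz x) :
    ln x * rh x y ≤ 3 * M ^ 2 * |(dt x y : ℝ)| := by
  have hs := sep M hM h A hA x y h1 h2 hd hx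
  have hy := nz_nonneg y
  have hx0 := nz_nonneg x
  have hsum := nz_add_sub x y
  have key : (ln x * rh x y) ^ 2 ≤ (3 * M ^ 2 * |(dt x y : ℝ)|) ^ 2 := by
    have e1 : (ln x * rh x y) ^ 2 = nz x * rh x y ^ 2 := by rw [mul_pow, ln_sq]
    have e2 : (3 * M ^ 2 * |(dt x y : ℝ)|) ^ 2 = 9 * M ^ 4 * (dt x y : ℝ) ^ 2 := by
      rw [mul_pow, sq_abs]; ring
    rw [e1, e2]
    have h3 : nz x * rh x y ^ 2 ≤ nz (x - y) * nz (x + y) := by
      have r1 : rh x y ^ 2 ≤ nz (x - y) := by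
        rw [← ln_sq]
        exact pow_le_pow_left₀ (rh_nonneg _ _) (min_le_left _ _) 2
      have r2 : rh x y ^ 2 ≤ nz (x + y) := by
        rw [← ln_sq]
        exact pow_le_pow_left₀ (rh_nonneg _ _) (min_le_right _ _) 2
      rcases le_total (nz (x - y)) (nz (x + y)) with h4 | h4
      · have h5 : nz x ≤ nz (x + y) := by linarith
        calc nz x * rh x y ^ 2 ≤ nz (x + y) * nz (x - y) :=
              mul_le_mul h5 r1 (sq_nonneg _) (nz_nonneg _)
          _ = _ := mul_comm _ _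
      · have h5 : nz x ≤ nz (x - y) := by linarith
        exact mul_le_mul h5 r2 (sq_nonneg _) (nz_nonneg _)
    have h6 : 0 ≤ M ^ 4 * (dt x y : ℝ) ^ 2 := by positivity
    linarith
  have h0 : 0 ≤ 3 * M ^ 2 * |(dt x y : ℝ)| := by positivity
  exact (sq_le_sq₀ (mul_nonneg (ln_nonneg _) (rh_nonneg _ _)) h0).1 key

/-- comparison of the norms -/
theorem nz_cmp {M h C : ℝ} (hM : 1 ≤ M) (hh : 1 ≤ h) (hC : 2 * M ≤ C) {A : ℝ × ℝ × ℝ}
    (hA : A ∈ KM M) {x y : ℤ × ℤ} (hd : |qz A x - qz A y| ≤ h) (hx : C * h ^ 2 ≤ nz x) :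
    nz y ≤ 2 * M ^ 2 * nz x ∧ nz x ≤ 2 * M ^ 2 * nz y := by
  have hM0 : 0 < M := by linarith
  have a1 : nz y / M ≤ qz A y := (hA (rc y)).1
  have a2 : qz A y ≤ M * nz y := (hA (rc y)).2
  have a3 : nz x / M ≤ qz A x := (hA (rc x)).1
  have a4 : qz A x ≤ M * nz x := (hA (rc x)).2
  have hd1 := (abs_le.1 hd).1
  have hd2 := (abs_le.1 hd).2
  have b1 : nz y ≤ M * qz A y := by
    rw [div_le_iff₀ hM0] at a1; linarith
  have b3 : nz x ≤ M * qz A x := by
    rw [div_le_iff₀ hM0] at a3; linarith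
  have hh2 : h ≤ h ^ 2 := by nlinarith
  have hMh : 2 * M * h ≤ nz x := by
    calc 2 * M * h ≤ C * h ^ 2 := mul_le_mul hC hh2 (by linarith) (by linarith)
      _ ≤ _ := hx
  have hyx : M * qz A y ≤ M * (M * nz x + h) := mul_le_mul_of_nonneg_left (by linarith) hM0.le
  have hxy : M * qz A x ≤ M * (M * nz y + h) := mul_le_mul_of_nonneg_left (by linarith) hM0.le
  have hnx := nz_nonneg x
  have hny := nz_nonneg y
  constructor
  · have h5 : nz x ≤ M ^ 2 * nz x := by nlinarith [mul_nonneg (by nlinarith : 0 ≤ M ^ 2 - 1) hnx]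
    nlinarith
  · nlinarith

theorem ptw (hkr : S_kr_lower) : S_ptw := by
  intro M hM
  have hM0 : 0 < M := by linarith
  have hMp : ∀ a b : ℕ, a ≤ b → M ^ a ≤ M ^ b := fun a b hab => pow_le_pow_right₀ hM hab
  have m0 : ∀ a : ℕ, (1 : ℝ) ≤ M ^ a := fun a => one_le_pow₀ hM
  refine ⟨54 * M ^ 7, by nlinarith [m0 7], ?_⟩
  intro h x y z hh hadm hfz hx
  obtain ⟨a1, a2, a3, a4, a5, a6⟩ := hadm
  obtain ⟨A, hA, d1, d2, d3⟩ := hfz
  have hh2 : 1 ≤ h ^ 2 := one_le_pow₀ hh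
  have C1 : 2 * M ≤ 54 * M ^ 7 := by
    have := hMp 1 7 (by norm_num)
    rw [pow_one] at this
    linarith
  have C2 : 2 * M ^ 2 ≤ 54 * M ^ 7 := by have := hMp 2 7 (by norm_num); linarith [m0 7]
  have C3 : 4 * M ^ 4 ≤ 54 * M ^ 7 := by have := hMp 4 7 (by norm_num); linarith [m0 7]
  obtain ⟨y1, y2⟩ := nz_cmp hM hh C1 hA d1 hx
  obtain ⟨z1, z2⟩ := nz_cmp hM hh C1 hA d3 hx
  have hx2 : 2 * M ^ 2 * h ^ 2 ≤ nz x :=
    (mul_le_mul_of_nonneg_right C2 (by linarith)).trans hx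
  have hy2 : 2 * M ^ 2 * h ^ 2 ≤ nz y := by
    have h1 : 4 * M ^ 4 * h ^ 2 ≤ nz x := (mul_le_mul_of_nonneg_right C3 (by linarith)).trans hx
    have h2 : 2 * M ^ 2 * (2 * M ^ 2 * h ^ 2) ≤ 2 * M ^ 2 * nz y := by
      calc 2 * M ^ 2 * (2 * M ^ 2 * h ^ 2) = 4 * M ^ 4 * h ^ 2 := by ring
        _ ≤ _ := h1.trans y2
    exact le_of_mul_le_mul_left h2 (by positivity)
  have rxy := ln_rh hM hA a1 a2 d1 hx2
  have rxz := ln_rh hM hA a3 a4 d3 hx2
  have ryz := ln_rh hM hA a5 a6 d2 hy2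
  have hx0 : x ≠ 0 := by
    rintro rfl
    have : nz (0 : ℤ × ℤ) = 0 := by simp [nz_eq]
    rw [this] at hx2
    nlinarith [m0 2]
  have lx := one_le_ln hx0
  have hxly : ln x ≤ 2 * M * ln y := by
    have h1 : ln x ^ 2 ≤ (2 * M * ln y) ^ 2 := by
      rw [mul_pow, ln_sq, ln_sq]
      nlinarith [nz_nonneg y, mul_nonneg (sq_nonneg M) (nz_nonneg y)]
    exact (sq_le_sq₀ (ln_nonneg _) (mul_nonneg (by linarith) (ln_nonneg _))).1 h1
  have ryz' : ln x * rh y z ≤ 6 * M ^ 3 * |(dt y z : ℝ)| := by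
    calc ln x * rh y z ≤ (2 * M * ln y) * rh y z :=
          mul_le_mul_of_nonneg_right hxly (rh_nonneg _ _)
      _ = 2 * M * (ln y * rh y z) := by ring
      _ ≤ 2 * M * (3 * M ^ 2 * |(dt y z : ℝ)|) := mul_le_mul_of_nonneg_left ryz (by linarith)
      _ = _ := by ring
  have rr1 := one_le_rh a1 a2
  have rr2 := one_le_rh a3 a4
  have rr3 := one_le_rh a5 a6
  have hkr' := hkr x y z
  have hnx : 0 < nz x := by have := one_le_nz hx0; linarith
  have hP : 0 < ln x * rh x y * (ln x * rh x z) * (ln x * rh y z) := by positivity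
  have hQ : ln x * rh x y * (ln x * rh x z) * (ln x * rh y z) ≤
      54 * M ^ 7 * |(dt x y : ℝ) * (dt x z : ℝ) * (dt y z : ℝ)| := by
    calc ln x * rh x y * (ln x * rh x z) * (ln x * rh y z) ≤
          (3 * M ^ 2 * |(dt x y : ℝ)|) * (3 * M ^ 2 * |(dt x z : ℝ)|) *
            (6 * M ^ 3 * |(dt y z : ℝ)|) :=
          mul_le_mul (mul_le_mul rxy rxz (by positivity) (by positivity)) ryz' (by positivity)
            (by positivity)
      _ = _ := by rw [abs_mul, abs_mul]; ring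
  have hR : ln x * rh x y * (ln x * rh x z) * (ln x * rh y z) ≤
      54 * M ^ 7 * (kr x y z * nz x) := hQ.trans (mul_le_mul_of_nonneg_left hkr' (by positivity))
  have hkpos : 0 < kr x y z := by
    by_contra hcon
    push Not at hcon
    have : 54 * M ^ 7 * (kr x y z * nz x) ≤ 0 :=
      mul_nonpos_of_nonneg_of_nonpos (by positivity)
        (mul_nonpos_of_nonpos_of_nonneg hcon hnx.le)
    linarith
  have hMM : M ^ 2 ≤ M ^ 7 := hMp 2 7 (by norm_num)
  have hM3 : M ^ 3 ≤ M ^ 7 := hMp 3 7 (by norm_num)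
  have big : ∀ t : ℝ, 0 ≤ t → 2 * M ^ 2 * t ≤ 54 * M ^ 7 * t := fun t ht =>
    mul_le_mul_of_nonneg_right C2 ht
  refine ⟨hkpos, ?_, y1.trans (big _ (nz_nonneg _)), z1.trans (big _ (nz_nonneg _)),
    y2.trans (big _ (nz_nonneg _)), z2.trans (big _ (nz_nonneg _)), ?_, ?_, ?_⟩
  · rw [div_le_div_iff₀ hkpos (by positivity)]
    have e1 : ln x * rh x y * (ln x * rh x z) * (ln x * rh y z) =
        nz x * (ln x * rh x y * rh x z * rh y z) := by
      rw [← ln_sq x]; ring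
    rw [e1] at hR
    have e2 : 54 * M ^ 7 * (kr x y z * nz x) = nz x * (54 * M ^ 7 * kr x y z) := by ring
    rw [e2] at hR
    have := le_of_mul_le_mul_left hR hnx
    linarith
  · refine rxy.trans (mul_le_mul_of_nonneg_right ?_ (abs_nonneg _))
    linarith [m0 7]
  · refine rxz.trans (mul_le_mul_of_nonneg_right ?_ (abs_nonneg _))
    linarith [m0 7]
  · refine ryz'.trans (mul_le_mul_of_nonneg_right ?_ (abs_nonneg _))
    linarith [m0 7]

end Pool.Agent.BTL.H70
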