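import Pool.Agent.BTL.Stmts

/-!
Squad BTL, module siegel: a short primitive relation between four vectors of the plane.
-/

set_option autoImplicit false
set_option linter.unusedVariables false
set_option linter.style.longLine false

open MeasureTheory Filter Topology

namespace Pool.Agent.BTL.H70

theorem abs_of_nz' {T : ℝ} (hT : 0 ≤ T) {x : ℤ × ℤ} (h : nz x ≤ T ^ 2) :
    |(x.1 : ℝ)| ≤ T ∧ |(x.2 : ℝ)| ≤ T := by
  rw [nz_eq] at h
  constructor
  · exact abs_le_of_sq_le_sq (by nlinarith [sq_nonneg (x.2 : ℝ)]) hT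
  · exact abs_le_of_sq_le_sq (by nlinarith [sq_nonneg (x.1 : ℝ)]) hT

theorem sum_bound4 {T : ℝ} (hT : 0 ≤ T) (H : ℕ) (k : Fin 4 → ℕ) (hk : ∀ i, k i ≤ H)
    (x : Fin 4 → ℤ) (hx : ∀ i, |(x i : ℝ)| ≤ T) :
    |((∑ i, (k i : ℤ) * x i : ℤ) : ℝ)| ≤ 4 * H * T := by
  push_cast
  calc |∑ i, (k i : ℝ) * (x i : ℝ)| ≤ ∑ i, |(k i : ℝ) * (x i : ℝ)| := Finset.abs_sum_le_sum_abs _ _
    _ ≤ ∑ _i : Fin 4, (H : ℝ) * T := by
        refine Finset.sum_le_sum fun i _ => ?_
        rw [abs_mul, Nat.abs_cast]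
        have : (k i : ℝ) ≤ H := by exact_mod_cast hk i
        exact mul_le_mul this (hx i) (abs_nonneg _) (by positivity)
    _ = 4 * H * T := by simp; ring

theorem siegel : S_siegel4 := by
  classical
  refine ⟨101, by norm_num, fun T hT q hq => ?_⟩
  have hT0 : 0 ≤ T := by linarith
  have hq1 : ∀ i, |((q i).1 : ℝ)| ≤ T := fun i => (abs_of_nz' hT0 (hq i)).1
  have hq2 : ∀ i, |((q i).2 : ℝ)| ≤ T := fun i => (abs_of_nz' hT0 (hq i)).2
  set H : ℕ := ⌈100 * T⌉₊ with hH
  have hHl : 100 * T ≤ H := Nat.le_ceil _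
  have hHu : (H : ℝ) ≤ 101 * T := by
    have := Nat.ceil_lt_add_one (show 0 ≤ 100 * T by positivity)
    linarith
  set L : ℤ := ⌊4 * (H : ℝ) * T⌋ with hL
  have hL0 : 0 ≤ L := Int.floor_nonneg.2 (by positivity)
  have hLu : (L : ℝ) ≤ 4 * H * T := Int.floor_le _
  set P : Finset (Fin 4 → ℕ) := Fintype.piFinset fun _ => Finset.range (H + 1) with hP
  set R : Finset (ℤ × ℤ) := Finset.Icc (-L) L ×ˢ Finset.Icc (-L) L with hR
  set f : (Fin 4 → ℕ) → ℤ × ℤ := fun k => (∑ i, (k i : ℤ) * (q i).1, ∑ i, (k i : ℤ) * (q i).2) with hf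
  have hmaps : ∀ k ∈ P, f k ∈ R := by
    intro k hk
    rw [hP, Fintype.mem_piFinset] at hk
    have hk' : ∀ i, k i ≤ H := fun i => by
      have := Finset.mem_range.1 (hk i); omega
    have e1 := sum_bound4 hT0 H k hk' (fun i => (q i).1) hq1
    have e2 := sum_bound4 hT0 H k hk' (fun i => (q i).2) hq2
    rw [abs_le] at e1 e2
    rw [hR, Finset.mem_product, Finset.mem_Icc, Finset.mem_Icc]
    refine ⟨⟨?_, ?_⟩, ⟨?_, ?_⟩⟩
    · rw [neg_le, hL, Int.le_floor]
      rw [Int.cast_neg]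
      linarith [e1.1]
    · rw [hL, Int.le_floor]
      exact e1.2
    · rw [neg_le, hL, Int.le_floor]
      rw [Int.cast_neg]
      linarith [e2.1]
    · rw [hL, Int.le_floor]
      exact e2.2
  have hcard : R.card < P.card := by
    rw [hR, hP, Finset.card_product, Fintype.card_piFinset, Int.card_Icc]
    simp only [Finset.card_range, Finset.prod_const, Finset.card_univ, Fintype.card_fin]
    have e1 : (((L + 1 - -L).toNat : ℕ) : ℝ) = 2 * L + 1 := by
      have : (((L + 1 - -L).toNat : ℕ) : ℤ) = L + 1 - -L := Int.toNat_of_nonneg (by omega)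
      have h2 : (((L + 1 - -L).toNat : ℕ) : ℝ) = ((L + 1 - -L : ℤ) : ℝ) := by
        rw [← this]; push_cast; rfl
      rw [h2]; push_cast; ring
    have e2 : (((L + 1 - -L).toNat : ℕ) : ℝ) < (((H + 1) ^ 2 : ℕ) : ℝ) := by
      rw [e1]
      push_cast
      have hH0 : (0 : ℝ) ≤ H := by positivity
      nlinarith
    have e3 : (L + 1 - -L).toNat < (H + 1) ^ 2 := by exact_mod_cast e2
    calc (L + 1 - -L).toNat * (L + 1 - -L).toNat < (H + 1) ^ 2 * (H + 1) ^ 2 :=
          Nat.mul_lt_mul'' e3 e3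
      _ = (H + 1) ^ 4 := by ring
  obtain ⟨k1, hk1, k2, hk2, hne, hfe⟩ := Finset.exists_ne_map_eq_of_card_lt_of_maps_to hcard hmaps
  set k : Fin 4 → ℤ := fun i => (k1 i : ℤ) - k2 i with hk
  have hk0 : k ≠ 0 := by
    intro h
    apply hne
    funext i
    have := congrFun h i
    simp only [hk, Pi.zero_apply] at this
    omega
  have hkb : ∀ i, |k i| ≤ H := by
    intro i
    rw [hP, Fintype.mem_piFinset] at hk1 hk2
    have a1 := Finset.mem_range.1 (hk1 i)
    have a2 := Finset.mem_range.1 (hk2 i)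
    simp only [hk]
    rw [abs_le]
    constructor <;> omega
  have hks1 : ∑ i, k i * (q i).1 = 0 := by
    have h := congrArg Prod.fst hfe
    simp only [hf] at h
    simp only [hk, sub_mul, Finset.sum_sub_distrib]
    rw [h, sub_self]
  have hks2 : ∑ i, k i * (q i).2 = 0 := by
    have h := congrArg Prod.snd hfe
    simp only [hf] at h
    simp only [hk, sub_mul, Finset.sum_sub_distrib]
    rw [h, sub_self]
  obtain ⟨g, hg1, hg2⟩ := Finset.extract_gcd k (Finset.univ_nonempty (α := Fin 4))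
  set G := Finset.univ.gcd k with hG
  have hG0 : G ≠ 0 := by
    intro h0
    rw [hG, Finset.gcd_eq_zero_iff] at h0
    exact hk0 (funext fun i => h0 i (Finset.mem_univ i))
  refine ⟨g, ?_, ?_, ?_, ?_, ?_⟩
  · intro h0
    apply hk0
    funext i
    rw [hg1 i (Finset.mem_univ i), h0]; simp
  · intro t ht
    have : t ∣ Finset.univ.gcd g := Finset.dvd_gcd fun i _ => ht i
    rw [hg2] at this
    exact isUnit_of_dvd_one this
  · rw [pi_norm_le_iff_of_nonneg (by positivity)]
    intro i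
    rw [Int.norm_eq_abs]
    have e1 : |g i| ≤ |k i| := by
      rw [hg1 i (Finset.mem_univ i), abs_mul]
      have := Int.one_le_abs hG0
      nlinarith [abs_nonneg (g i)]
    have e2 : |g i| ≤ H := e1.trans (hkb i)
    have e3 : |(g i : ℝ)| ≤ H := by exact_mod_cast e2
    linarith
  · have h : G * ∑ i, g i * (q i).1 = 0 := by
      rw [← hks1, Finset.mul_sum]
      refine Finset.sum_congr rfl fun i hi => ?_
      rw [hg1 i hi]; ring
    rcases mul_eq_zero.1 h with h | h
    · exact absurd h hG0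
    · exact h
  · have h : G * ∑ i, g i * (q i).2 = 0 := by
      rw [← hks2, Finset.mul_sum]
      refine Finset.sum_congr rfl fun i hi => ?_
      rw [hg1 i hi]; ring
    rcases mul_eq_zero.1 h with h | h
    · exact absurd h hG0
    · exact h

end Pool.Agent.BTL.H70
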